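import Pool.Agent.Lib.MP_7e0f1f_an.Weak

set_option autoImplicit false

open MeasureTheory Set Filter

namespace Pool.Agent.Results.MP_7e0f1f_an.WeakType

/-- Case `n = 2`, `α = 1`, `p = 2`: with the log bump
`A t = t ^ 2 * (1 + log (1 + t)) ^ (3 / 2)` on either side, both separated bump constants are
finite for some pair of weights for which the fractional integral is not even of weak type. -/
theorem result : ∃ A : ℝ → ℝ, (∀ t, A t = t ^ 2 * (1 + Real.log (1 + t)) ^ (3 / 2 : ℝ)) ∧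
    -- `A` is a Young function
    (ConvexOn ℝ (Ici 0) A ∧ StrictMonoOn A (Ici 0) ∧ A 0 = 0 ∧
      Tendsto (fun t : ℝ => A t / t) atTop atTop) ∧
    -- its associate function is finite and satisfies the `B_2` condition
    (∀ t, BddAbove (range fun s : Ioi (0 : ℝ) => (s : ℝ) * t - A s)) ∧
    (∫⁻ t in Ioi (1 : ℝ),
      ENNReal.ofReal ((⨆ s : Ioi (0 : ℝ), ((s : ℝ) * t - A s)) * t ^ (-3 : ℝ)) < ⊤) ∧
    ∃ u σ : (Fin 2 → ℝ) → ℝ, (∀ x, 0 ≤ u x) ∧ (∀ x, 0 ≤ σ x) ∧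
      Integrable u volume ∧ Integrable σ volume ∧
      -- the two separated bump conditions
      (∃ K : ℝ, ∀ (a : Fin 2 → ℝ) (ℓ : ℝ), 0 < ℓ →
        (volume (univ.pi fun i => Ico (a i) (a i + ℓ))) ^ (1 / 2 : ℝ) *
          ((∫⁻ x in univ.pi fun i => Ico (a i) (a i + ℓ), ENNReal.ofReal (u x)) /
            volume (univ.pi fun i => Ico (a i) (a i + ℓ))) ^ (1 / 2 : ℝ) *
          (⨅ (c : ℝ) (_ : 0 < c ∧ (∫⁻ x in univ.pi fun i => Ico (a i) (a i + ℓ),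
              ENNReal.ofReal (A (σ x ^ (1 / 2 : ℝ) / c))) ≤
                volume (univ.pi fun i => Ico (a i) (a i + ℓ))), ENNReal.ofReal c) ≤
          ENNReal.ofReal K) ∧
      (∃ K : ℝ, ∀ (a : Fin 2 → ℝ) (ℓ : ℝ), 0 < ℓ →
        (volume (univ.pi fun i => Ico (a i) (a i + ℓ))) ^ (1 / 2 : ℝ) *
          ((∫⁻ x in univ.pi fun i => Ico (a i) (a i + ℓ), ENNReal.ofReal (σ x)) /
            volume (univ.pi fun i => Ico (a i) (a i + ℓ))) ^ (1 / 2 : ℝ) *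
          (⨅ (c : ℝ) (_ : 0 < c ∧ (∫⁻ x in univ.pi fun i => Ico (a i) (a i + ℓ),
              ENNReal.ofReal (A (u x ^ (1 / 2 : ℝ) / c))) ≤
                volume (univ.pi fun i => Ico (a i) (a i + ℓ))), ENNReal.ofReal c) ≤
          ENNReal.ofReal K) ∧
      -- the weak type inequality fails
      ¬ ∃ C : ℝ, ∀ f : (Fin 2 → ℝ) → ℝ, Measurable f → (∀ x, 0 ≤ f x) → ∀ τ : ℝ, 0 < τ →
        ENNReal.ofReal τ * (∫⁻ x in {x | ENNReal.ofReal τ < ∫⁻ y, ENNReal.ofReal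
          (f y * σ y * (Real.sqrt (∑ i, (x i - y i) ^ 2))⁻¹)}, ENNReal.ofReal (u x))
            ^ (1 / 2 : ℝ) ≤
          ENNReal.ofReal C * (∫⁻ x, ENNReal.ofReal (f x ^ 2 * σ x)) ^ (1 / 2 : ℝ) := by
  refine ⟨SepBump.A, fun t => rfl, ⟨SepBump.A_convex, SepBump.A_strictMono, SepBump.A_zero,
    SepBump.A_superlinear⟩, SepBump.conj_bdd, SepBump.Bp_cond, SepBump.u, SepBump.sg,
    SepBump.u_nonneg, SepBump.sg_nonneg, SepBump.u_integrable, SepBump.sg_integrable,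
    ⟨6, SepBump.bump1⟩, ⟨6, SepBump.bump2⟩, ?_⟩
  rintro ⟨C, hC⟩
  obtain ⟨f, hf1, hf2, τ, hτ, hlt⟩ := SepBump.weak_failure C
  exact absurd (hC f hf1 hf2 τ hτ) (not_le.mpr hlt)

end Pool.Agent.Results.MP_7e0f1f_an.WeakType
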